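import Pool.Agent.Run7.h668.TK.All

/-!
# Stretched Kostka polynomials of two-row shapes have non-negative coefficients

King, Tollu and Toumazet conjectured that the polynomial `k ↦ K_{k la, k mu}` has no negative
coefficient.  This file proves it for every partition `la` with at most two parts and every
partition `mu`.
-/

namespace Pool.Agent.Results.MP_0df73a_co.TwoRowPositivity

/-- The Young diagram of the partition `k la`: its `i`-th row has `k` times as many cells as the
`i`-th row of `la`. -/
def stretch (k : ℕ) (la : YoungDiagram) : YoungDiagram where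
  cells := (Finset.range (la.colLen 0)).biUnion fun i =>
    (Finset.range (k * la.rowLen i)).image fun j => (i, j)
  isLowerSet := by
    rintro ⟨i, j⟩ ⟨i', j'⟩ hle hmem
    obtain ⟨h1, h2⟩ := Prod.mk_le_mk.mp hle
    simp only [Finset.coe_biUnion, Finset.coe_image, Set.mem_iUnion, Set.mem_image,
      Finset.mem_coe, Finset.mem_range, Prod.mk.injEq] at hmem ⊢
    obtain ⟨x, hx, y, hy, rfl, rfl⟩ := hmem
    have h3 := la.rowLen_anti i' x h1
    exact ⟨i', by omega, j', lt_of_lt_of_le (by omega) (Nat.mul_le_mul_left k h3), rfl, rfl⟩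

theorem mem_stretch (k : ℕ) (la : YoungDiagram) (i j : ℕ) :
    (i, j) ∈ stretch k la ↔ j < k * la.rowLen i := by
  have h : (i, j) ∈ stretch k la ↔ i < la.colLen 0 ∧ j < k * la.rowLen i := by
    rw [← YoungDiagram.mem_cells]
    simp only [stretch, Finset.mem_biUnion, Finset.mem_range, Finset.mem_image, Prod.mk.injEq]
    constructor
    · rintro ⟨x, hx, y, hy, rfl, rfl⟩
      exact ⟨hx, hy⟩
    · rintro ⟨hx, hy⟩
      exact ⟨i, hx, j, hy, rfl, rfl⟩
  rw [h]
  constructor
  · exact fun h => h.2
  · intro h1
    refine ⟨?_, h1⟩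
    by_contra hc
    rw [Run7.h668.TK.rowLen_zero (by omega : la.colLen 0 ≤ i)] at h1
    omega

/-- The number of semistandard Young tableaux of shape `D` in which, for every `v`, the entry `v`
occurs exactly `m v` times. -/
noncomputable def kostka (D : YoungDiagram) (m : ℕ → ℕ) : ℕ :=
  Nat.card {T : SemistandardYoungTableau D //
    ∀ v : ℕ, Nat.card {c : ℕ × ℕ // c ∈ D ∧ T c.1 c.2 = v} = m v}

/-- **Positivity of the stretched Kostka polynomials of two-row shapes.**  Let `la` be a partition
with at most two parts (`la.rowLen 2 = 0`) and `mu` any partition.  There is a polynomial `P` with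
rational non-negative coefficients such that `K_{k la, k mu} = P(k)` for all `k ≥ 1`. -/
theorem result (la mu : YoungDiagram) (hla : la.rowLen 2 = 0) :
    ∃ P : Polynomial ℚ,
      (∀ k : ℕ, 1 ≤ k → (kostka (stretch k la) (fun v => k * mu.rowLen v) : ℚ) = P.eval (k : ℚ)) ∧
      ∀ m : ℕ, 0 ≤ P.coeff m := by
  obtain ⟨P, h1, h2⟩ := Run7.h668.TK.main la mu hla
  exact ⟨P, fun k hk => h1 k hk (stretch k la) (mem_stretch k la), h2⟩

end Pool.Agent.Results.MP_0df73a_co.TwoRowPositivity
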